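import Pool.Agent.P8H49.WT.Stm

/-!
# Package WT/CNT (for helper49)
-/

set_option autoImplicit false

open UpperHalfPlane ModularGroup
open scoped MatrixGroups

namespace Pool.Agent.P8H76.WT

theorem ns (γ : SL(2, ℤ)) (z : ℍ) : Complex.normSq (denom γ z) =
    ((γ 1 0 : ℤ) * z.re + (γ 1 1 : ℤ)) ^ 2 + ((γ 1 0 : ℤ) * z.im) ^ 2 := by
  rw [ModularGroup.denom_apply, Complex.normSq_apply]
  have h1 : (((γ 1 0 : ℤ) : ℂ) * (z : ℂ) + ((γ 1 1 : ℤ) : ℂ)).re = (γ 1 0 : ℤ) * z.re + (γ 1 1 : ℤ) := by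
    simp
  have h2 : (((γ 1 0 : ℤ) : ℂ) * (z : ℂ) + ((γ 1 1 : ℤ) : ℂ)).im = (γ 1 0 : ℤ) * z.im := by
    simp
  rw [h1, h2]
  ring

theorem im_eq (γ : SL(2, ℤ)) (z : ℍ) : (γ • z).im * (((γ 1 0 : ℤ) * z.re + (γ 1 1 : ℤ)) ^ 2 +
    ((γ 1 0 : ℤ) * z.im) ^ 2) = z.im := by
  rw [← ns, ModularGroup.im_smul_eq_div_normSq]
  have h : Complex.normSq (denom γ z) ≠ 0 := (normSq_denom_pos _ z.im_ne_zero).ne'
  field_simp

theorem det_eq (γ : SL(2, ℤ)) : γ 0 0 * γ 1 1 - γ 0 1 * γ 1 0 = 1 := by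
  have := γ.2
  rwa [Matrix.det_fin_two] at this

/-- matrices with the same lower row -/
theorem same_row {γ γ' : SL(2, ℤ)} (h0 : γ 1 0 = γ' 1 0) (h1 : γ 1 1 = γ' 1 1) :
    ∃ k : ℤ, γ' = ModularGroup.T ^ k * γ := by
  refine ⟨γ 0 0 * γ' 0 1 - γ' 0 0 * γ 0 1, ?_⟩
  have d := det_eq γ
  have d' := det_eq γ'
  rw [← h0, ← h1] at d'
  apply Subtype.ext
  rw [Matrix.SpecialLinearGroup.coe_mul, ModularGroup.coe_T_zpow]
  have e : (γ : Matrix (Fin 2) (Fin 2) ℤ) = !![γ 0 0, γ 0 1; γ 1 0, γ 1 1] := Matrix.eta_fin_two _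
  rw [e, Matrix.mul_fin_two, Matrix.eta_fin_two (γ' : Matrix (Fin 2) (Fin 2) ℤ)]
  have h0' : (γ' : Matrix (Fin 2) (Fin 2) ℤ) 1 0 = γ 1 0 := h0.symm
  have h1' : (γ' : Matrix (Fin 2) (Fin 2) ℤ) 1 1 = γ 1 1 := h1.symm
  rw [h0', h1']
  have e1 : γ' 0 0 = 1 * γ 0 0 + (γ 0 0 * γ' 0 1 - γ' 0 0 * γ 0 1) * γ 1 0 := by
    linear_combination (-(γ' 0 0)) * d + (γ 0 0) * d'
  have e2 : γ' 0 1 = 1 * γ 0 1 + (γ 0 0 * γ' 0 1 - γ' 0 0 * γ 0 1) * γ 1 1 := by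
    linear_combination (-(γ' 0 1)) * d + (γ 0 1) * d'
  congr 1
  ext i j
  fin_cases i <;> fin_cases j
  · exact e1
  · exact e2
  · show γ 1 0 = 0 * γ 0 0 + 1 * γ 1 0
    ring
  · show γ 1 1 = 0 * γ 0 1 + 1 * γ 1 1
    ring

theorem bnd {x : ℤ} (h : ((x : ℝ)) ^ 2 < 4) : -1 ≤ x ∧ x ≤ 1 := by
  have h2 : x ^ 2 < 4 := by exact_mod_cast h
  constructor <;> nlinarith

theorem y0_pos {w : ℍ} (hw : w ∈ ModularGroup.fd) : (3 : ℝ) / 4 ≤ w.im ^ 2 := by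
  have := ModularGroup.three_le_four_mul_im_sq_of_mem_fd hw
  linarith

/-- the lower row is small -/
theorem rows {w₀ w : ℍ} (hw₀ : w₀ ∈ ModularGroup.fd) (hw : w ∈ ModularGroup.fd) {γ : SL(2, ℤ)}
    (h : w₀.im / 2 ≤ (γ • w).im) : (-1 ≤ γ 1 0 ∧ γ 1 0 ≤ 1) ∧ (-1 ≤ γ 1 1 ∧ γ 1 1 ≤ 1) := by
  have hy := y0_pos hw₀
  have hv := y0_pos hw
  have hy0 := w₀.im_pos
  have hv0 := w.im_pos
  have hre : |w.re| ≤ 1 / 2 := hw.2
  have him := im_eq γ w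
  have hd := det_eq γ
  obtain ⟨c, hc⟩ : ∃ c, c = γ 1 0 := ⟨_, rfl⟩
  obtain ⟨d, hdd⟩ : ∃ d, d = γ 1 1 := ⟨_, rfl⟩
  rw [← hc, ← hdd] at him hd ⊢
  have h1 : w₀.im / 2 * (((c : ℝ) * w.re + d) ^ 2 + ((c : ℝ) * w.im) ^ 2) ≤ w.im := by
    calc w₀.im / 2 * (((c : ℝ) * w.re + d) ^ 2 + ((c : ℝ) * w.im) ^ 2) ≤
        (γ • w).im * (((c : ℝ) * w.re + d) ^ 2 + ((c : ℝ) * w.im) ^ 2) :=
          mul_le_mul_of_nonneg_right h (by positivity)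
      _ = w.im := him
  generalize w₀.im = y at *
  generalize w.im = v at *
  generalize w.re = u at *
  have hyv : 3 / 4 ≤ y * v := by
    have h2 : (3 / 4 : ℝ) ^ 2 ≤ (y * v) ^ 2 := by nlinarith
    exact le_of_sq_le_sq h2 (by positivity)
  have h2 : y * v * (c : ℝ) ^ 2 ≤ 2 := by
    have h3 : v * (y * v * (c : ℝ) ^ 2) ≤ v * 2 := by nlinarith [sq_nonneg ((c : ℝ) * u + d)]
    exact le_of_mul_le_mul_left h3 hv0
  have hc2 : (c : ℝ) ^ 2 < 4 := by nlinarith [sq_nonneg (c : ℝ)]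
  have hcb := bnd hc2
  refine ⟨hcb, ?_⟩
  by_cases hc0 : c = 0
  · rw [hc0, mul_zero, sub_zero] at hd
    rcases Int.eq_one_or_neg_one_of_mul_eq_one' hd with h3 | h3
    · rw [h3.2]; norm_num
    · rw [h3.2]; norm_num
  · have hc1 : (c : ℝ) ^ 2 = 1 := by
      have h3 : c = 1 ∨ c = -1 := by omega
      rcases h3 with h3 | h3 <;> rw [h3] <;> norm_num
    apply bnd
    have h4 : ((c : ℝ) * u + d) ^ 2 ≤ 4 / 3 := by
      have h5 : y ^ 2 * ((c : ℝ) * u + d) ^ 2 ≤ 1 := by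
        have h6 : y * ((c : ℝ) * u + d) ^ 2 ≤ 2 * v - y * v ^ 2 := by
          have : ((c : ℝ) * v) ^ 2 = v ^ 2 := by rw [mul_pow, hc1, one_mul]
          rw [this] at h1
          nlinarith
        nlinarith [sq_nonneg (1 - y * v)]
      nlinarith [sq_nonneg ((c : ℝ) * u + d)]
    have hu : u ^ 2 ≤ 1 / 4 := by
      have := abs_le.1 hre
      nlinarith
    have h5 : ((c : ℝ) * u) ^ 2 ≤ 1 / 4 := by rw [mul_pow, hc1, one_mul]; exact hu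
    nlinarith [sq_nonneg ((c : ℝ) * u + d + (c : ℝ) * u)]

theorem cnt : Pool.Agent.P8H49.WT.S_CNT := by
  classical
  intro w₀ hw₀ w hw
  have hy := y0_pos hw₀
  have hy0 := w₀.im_pos
  let T : Finset (ℤ × ℤ × ℤ) := Finset.Icc (-1) 1 ×ˢ Finset.Icc (-1) 1 ×ˢ
    Finset.Icc ⌊w₀.re - w₀.im / 2⌋ ⌊w₀.re + w₀.im / 2⌋
  let φ : SL(2, ℤ) → ℤ × ℤ × ℤ := fun γ => (γ 1 0, γ 1 1, ⌊(γ • w).re⌋)
  have hmaps : ∀ γ ∈ {γ : SL(2, ℤ) | ‖((γ • w : ℍ) : ℂ) - (w₀ : ℂ)‖ < w₀.im / 2}, φ γ ∈ (T : Set (ℤ × ℤ × ℤ)) := by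
    intro γ hγ
    have h1 : ‖((γ • w : ℍ) : ℂ) - (w₀ : ℂ)‖ < w₀.im / 2 := hγ
    have him : |(γ • w).im - w₀.im| < w₀.im / 2 := by
      refine lt_of_le_of_lt ?_ h1
      have := Complex.abs_im_le_norm (((γ • w : ℍ) : ℂ) - (w₀ : ℂ))
      rwa [Complex.sub_im] at this
    have hre : |(γ • w).re - w₀.re| < w₀.im / 2 := by
      refine lt_of_le_of_lt ?_ h1
      have := Complex.abs_re_le_norm (((γ • w : ℍ) : ℂ) - (w₀ : ℂ))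
      rwa [Complex.sub_re] at this
    rw [abs_lt] at him hre
    have h2 := rows hw₀ hw (γ := γ) (by linarith)
    rw [Finset.mem_coe, Finset.mem_product, Finset.mem_product, Finset.mem_Icc, Finset.mem_Icc, Finset.mem_Icc]
    exact ⟨h2.1, h2.2, Int.floor_le_floor (by linarith), Int.floor_le_floor (by linarith)⟩
  have hinj : Set.InjOn φ {γ : SL(2, ℤ) | ‖((γ • w : ℍ) : ℂ) - (w₀ : ℂ)‖ < w₀.im / 2} := by
    intro γ _ γ' _ h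
    have h0 : γ 1 0 = γ' 1 0 := congrArg Prod.fst h
    have h1 : γ 1 1 = γ' 1 1 := congrArg (fun x => x.2.1) h
    have h2 : ⌊(γ • w).re⌋ = ⌊(γ' • w).re⌋ := congrArg (fun x => x.2.2) h
    obtain ⟨k, rfl⟩ := same_row h0 h1
    rw [mul_smul, ModularGroup.re_T_zpow_smul, Int.floor_add_intCast] at h2
    have hk : k = 0 := by omega
    rw [hk, zpow_zero, one_mul]
  refine ⟨Set.Finite.of_injOn hmaps hinj T.finite_toSet, ?_⟩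
  have h1 := Set.ncard_le_ncard_of_injOn φ hmaps hinj T.finite_toSet
  rw [Set.ncard_coe_finset] at h1
  have h2 : (T.card : ℝ) ≤ 9 * (w₀.im + 2) := by
    have hab : ⌊w₀.re - w₀.im / 2⌋ ≤ ⌊w₀.re + w₀.im / 2⌋ := Int.floor_le_floor (by linarith)
    rw [Finset.card_product, Finset.card_product, Int.card_Icc, Int.card_Icc]
    have e : ((1 + 1 - (-1) : ℤ)).toNat = 3 := rfl
    rw [e]
    have h3 : (((⌊w₀.re + w₀.im / 2⌋ + 1 - ⌊w₀.re - w₀.im / 2⌋).toNat : ℕ) : ℝ) ≤ w₀.im + 2 := by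
      have h4 : (((⌊w₀.re + w₀.im / 2⌋ + 1 - ⌊w₀.re - w₀.im / 2⌋).toNat : ℤ) : ℝ) =
          ((⌊w₀.re + w₀.im / 2⌋ + 1 - ⌊w₀.re - w₀.im / 2⌋ : ℤ) : ℝ) := by
        rw [Int.toNat_of_nonneg (by omega)]
      rw [Int.cast_natCast] at h4
      rw [h4]
      push_cast
      have h5 := Int.floor_le (w₀.re + w₀.im / 2)
      have h6 := Int.lt_floor_add_one (w₀.re - w₀.im / 2)
      linarith
    push_cast
    nlinarith
  have h3 : (9 : ℝ) * (w₀.im + 2) ≤ 100 * w₀.im := by nlinarith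
  calc _ ≤ (T.card : ℝ) := by exact_mod_cast h1
    _ ≤ _ := h2
    _ ≤ _ := h3

end Pool.Agent.P8H76.WT
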