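import Pool.Agent.P8H76.WT.Cnt

/-!
# Package WT/HTB (for helper49)
-/

set_option autoImplicit false

open UpperHalfPlane ModularGroup
open scoped MatrixGroups

namespace Pool.Agent.P8H76.WT

open Pool.Agent.P8H49.WT

theorem term_nonneg (x y : ℝ) (hy : 0 ≤ y) (c : ℕ) (d : ℤ) :
    0 ≤ y / (((c : ℝ) * x + d) ^ 2 + ((c : ℝ) * y) ^ 2) := by positivity

/-- one summand is at most the sum -/
theorem le_U {x y : ℝ} (hy : 0 ≤ y) {c : ℕ} {d : ℤ} (hc : c ∈ Finset.Icc 1 ⌊2 / √y⌋₊)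
    (hd : d ∈ Finset.Icc (-(c : ℤ) - 3) 3) : y / (((c : ℝ) * x + d) ^ 2 + ((c : ℝ) * y) ^ 2) ≤ U x y := by
  have h1 : y / (((c : ℝ) * x + d) ^ 2 + ((c : ℝ) * y) ^ 2) ≤
      ∑ d ∈ Finset.Icc (-(c : ℤ) - 3) 3, y / (((c : ℝ) * x + d) ^ 2 + ((c : ℝ) * y) ^ 2) :=
    Finset.single_le_sum (f := fun d : ℤ => y / (((c : ℝ) * x + d) ^ 2 + ((c : ℝ) * y) ^ 2))
      (fun d _ => term_nonneg x y hy c d) hd
  have h2 := Finset.single_le_sum (f := fun c : ℕ => ∑ d ∈ Finset.Icc (-(c : ℤ) - 3) 3,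
    y / (((c : ℝ) * x + d) ^ 2 + ((c : ℝ) * y) ^ 2))
      (fun c _ => Finset.sum_nonneg fun d _ => term_nonneg x y hy c d) hc
  rw [U]
  linarith

theorem core (x y : ℝ) (hx0 : 0 ≤ x) (hx1 : x ≤ 1) (hy0 : 0 < y) (c d : ℤ) (hc : 0 < c) (m : ℝ)
    (hm : 3 / 4 ≤ m ^ 2) (hm0 : 0 < m) (h : m * (((c : ℝ) * x + d) ^ 2 + ((c : ℝ) * y) ^ 2) = y)
    (hy1 : y ≤ 1) : m ≤ U x y := by
  have hc1 : (1 : ℝ) ≤ c := by exact_mod_cast hc
  have hm2 : 1 / 2 ≤ m := by nlinarith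
  have hm3 : 4 / 5 ≤ m := by
    by_contra hcon
    push Not at hcon
    nlinarith
  have hcy : ((c : ℝ)) ^ 2 * y ≤ 2 := by
    have h1 : y * (m * ((c : ℝ) ^ 2 * y)) ≤ y * 1 := by nlinarith [sq_nonneg ((c : ℝ) * x + d)]
    have h2 := le_of_mul_le_mul_left h1 hy0
    nlinarith [mul_nonneg (sq_nonneg (c : ℝ)) hy0.le]
  have hd2 : ((c : ℝ) * x + d) ^ 2 ≤ 5 / 4 := by
    nlinarith [sq_nonneg ((c : ℝ) * y), sq_nonneg ((c : ℝ) * x + d)]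
  have hd3 := abs_le_of_sq_le_sq' (show ((c : ℝ) * x + d) ^ 2 ≤ 2 ^ 2 by linarith) (by norm_num)
  have hcx0 : 0 ≤ (c : ℝ) * x := by positivity
  have hcx1 : (c : ℝ) * x ≤ c := mul_le_of_le_one_right (by linarith) hx1
  obtain ⟨c', rfl⟩ := Int.eq_ofNat_of_zero_le hc.le
  have hcm : c' ∈ Finset.Icc 1 ⌊2 / √y⌋₊ := by
    rw [Finset.mem_Icc]
    refine ⟨by exact_mod_cast hc, Nat.le_floor ?_⟩
    rw [le_div_iff₀ (Real.sqrt_pos.2 hy0)]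
    have h1 : ((c' : ℝ) * √y) ^ 2 ≤ 2 ^ 2 := by
      rw [mul_pow, Real.sq_sqrt hy0.le]
      have h2 : (((c' : ℤ) : ℝ)) ^ 2 * y ≤ 2 := hcy
      rw [Int.cast_natCast] at h2
      linarith
    exact le_of_sq_le_sq h1 (by norm_num)
  have hdm : d ∈ Finset.Icc (-(c' : ℤ) - 3) 3 := by
    rw [Finset.mem_Icc]
    constructor
    · have h1 : (-(c' : ℤ) - 3 : ℝ) ≤ d := by linarith [hd3.1]
      exact_mod_cast h1
    · have h1 : (d : ℝ) ≤ 3 := by linarith [hd3.2]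
      exact_mod_cast h1
  have h1 := le_U (x := x) hy0.le hcm hdm
  have h2 : m = y / (((c' : ℝ) * x + d) ^ 2 + ((c' : ℝ) * y) ^ 2) := by
    rw [Int.cast_natCast] at h
    have h3 : ((c' : ℝ) * x + d) ^ 2 + ((c' : ℝ) * y) ^ 2 ≠ 0 := by
      intro h4
      rw [h4, mul_zero] at h
      exact hy0.ne h
    rw [eq_div_iff h3, h]
  rw [h2]
  exact h1

theorem htb : S_HTB := by
  intro z hx0 hx1 hy1 γ hγ
  have hy0 := z.im_pos
  have hm := y0_pos hγ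
  have hm0 := (γ • z).im_pos
  have h := im_eq γ z
  have hd := det_eq γ
  rcases lt_trichotomy (γ 1 0) 0 with hc | hc | hc
  · refine core z.re z.im hx0 hx1 hy0 (-(γ 1 0)) (-(γ 1 1)) (by omega) _ hm hm0 ?_ hy1
    push_cast
    linear_combination h
  · rw [hc, mul_zero, sub_zero] at hd
    have h1 : ((γ 1 1 : ℤ) : ℝ) ^ 2 = 1 := by
      rcases Int.eq_one_or_neg_one_of_mul_eq_one' hd with h3 | h3
      · rw [h3.2]; norm_num
      · rw [h3.2]; norm_num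
    rw [hc, Int.cast_zero, zero_mul, zero_mul, zero_add, h1] at h
    have h2 : (γ • z).im = z.im := by
      rw [← h]; ring
    rw [h2, U]
    have h3 : 0 ≤ ∑ c ∈ Finset.Icc 1 ⌊2 / √z.im⌋₊, ∑ d ∈ Finset.Icc (-(c : ℤ) - 3) 3,
        z.im / (((c : ℝ) * z.re + d) ^ 2 + ((c : ℝ) * z.im) ^ 2) :=
      Finset.sum_nonneg fun c _ => Finset.sum_nonneg fun d _ => term_nonneg _ _ hy0.le c d
    linarith
  · exact core z.re z.im hx0 hx1 hy0 (γ 1 0) (γ 1 1) hc _ hm hm0 h hy1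

end Pool.Agent.P8H76.WT
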