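import Pool.Agent.P8H49.WT.Stm

/-!
# Package WT/SMV (for helper49): the area mean value inequality
-/

set_option autoImplicit false

open MeasureTheory Metric Set
open scoped ENNReal

namespace Pool.Agent.P8H76.WT

theorem circle_le (h : ℂ → ℂ) (w : ℂ) (r : ℝ) (hd : DifferentiableOn ℂ h (ball w (2 * r)))
    {u : ℂ} (hu : u ∈ ball (0 : ℂ) r) (hr : 0 < r) :
    ENNReal.ofReal (2 * Real.pi) * ENNReal.ofReal ‖h w‖ ≤
      ∫⁻ θ in Ioc 0 (2 * Real.pi), ENNReal.ofReal ‖h (w + circleMap 0 1 θ * u)‖ := by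
  have hmem : ∀ ζ : ℂ, ‖ζ‖ < 2 → w + ζ * u ∈ ball w (2 * r) := by
    intro ζ hζ
    rw [mem_ball, dist_eq_norm, add_sub_cancel_left, norm_mul]
    rw [mem_ball_zero_iff] at hu
    rcases (norm_nonneg u).eq_or_lt with h0 | h0
    · rw [← h0, mul_zero]; linarith
    · calc ‖ζ‖ * ‖u‖ < 2 * ‖u‖ := mul_lt_mul_of_pos_right hζ h0
        _ ≤ 2 * r := by linarith
  have h2 : DifferentiableOn ℂ (fun ζ : ℂ => h (w + ζ * u)) (ball 0 2) := by
    refine hd.comp (by fun_prop) fun ζ hζ => hmem ζ ?_
    rwa [mem_ball_zero_iff] at hζ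
  have h3 := circleAverage_of_differentiable_on_off_countable (f := fun ζ : ℂ => h (w + ζ * u))
      (R := 1) (c := 0) (s := ∅) countable_empty
      (h2.continuousOn.mono (by rw [abs_one]; exact closedBall_subset_ball (by norm_num)))
      (fun z hz => h2.differentiableAt (isOpen_ball.mem_nhds (by
        rw [abs_one] at hz
        exact ball_subset_ball (by norm_num) hz.1)))
  simp only [zero_mul, add_zero] at h3
  rw [Real.circleAverage_def] at h3
  have h4 : ((2 * Real.pi : ℝ) : ℂ) * h w = ∫ θ in Ioc 0 (2 * Real.pi), h (w + circleMap 0 1 θ * u) := by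
    rw [← h3, intervalIntegral.integral_of_le Real.two_pi_pos.le, Complex.real_smul]
    have : ((2 * Real.pi : ℝ) : ℂ) ≠ 0 := by exact_mod_cast Real.two_pi_pos.ne'
    push_cast at this ⊢
    rw [← mul_assoc, mul_inv_cancel₀ this, one_mul]
  calc ENNReal.ofReal (2 * Real.pi) * ENNReal.ofReal ‖h w‖ = ENNReal.ofReal ‖((2 * Real.pi : ℝ) : ℂ) * h w‖ := by
        rw [norm_mul, ENNReal.ofReal_mul (norm_nonneg _), Complex.norm_real, Real.norm_of_nonneg Real.two_pi_pos.le]
    _ ≤ ∫⁻ θ in Ioc 0 (2 * Real.pi), ENNReal.ofReal ‖h (w + circleMap 0 1 θ * u)‖ := by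
        rw [h4, ofReal_norm]
        refine (enorm_integral_le_lintegral_enorm _).trans (le_of_eq ?_)
        refine lintegral_congr fun θ => ?_
        rw [ofReal_norm]

theorem rot (H : ℂ → ℝ≥0∞) (c : ℂ) (hc : ‖c‖ = 1) (R : ℝ) :
    ∫⁻ u in ball (0 : ℂ) R, H (c * u) = ∫⁻ u in ball (0 : ℂ) R, H u := by
  set a : Circle := ⟨c, mem_sphere_zero_iff_norm.2 hc⟩ with ha
  have hmp : MeasurePreserving (rotation a) volume volume := (rotation a).measurePreserving
  have h := hmp.setLIntegral_comp_preimage_emb (rotation a).toHomeomorph.measurableEmbedding H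
    (ball (0 : ℂ) R)
  have e : (rotation a) ⁻¹' ball (0 : ℂ) R = ball (0 : ℂ) R := by
    ext u
    rw [Set.mem_preimage, mem_ball_zero_iff, mem_ball_zero_iff, LinearIsometryEquiv.norm_map]
  rw [e] at h
  exact h

theorem smv : Pool.Agent.P8H49.WT.S_SMV := by
  classical
  intro h w r hr hd
  let g : ℂ → ℝ≥0∞ := (ball w (2 * r)).indicator (fun z => ENNReal.ofReal ‖h z‖)
  have hg : ∀ z ∈ ball w (2 * r), g z = ENNReal.ofReal ‖h z‖ := fun z hz => indicator_of_mem hz _
  have hgm : Measurable g := by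
    have h1 : ContinuousOn (fun z => ENNReal.ofReal ‖h z‖) (ball w (2 * r)) :=
      ENNReal.continuous_ofReal.comp_continuousOn hd.continuousOn.norm
    have h2 : Measurable ((ball w (2 * r)).piecewise (fun z => ENNReal.ofReal ‖h z‖) 0) :=
      h1.measurable_piecewise (continuousOn_const (c := (0 : ℝ≥0∞))) measurableSet_ball
    rwa [piecewise_eq_indicator] at h2
  have hmem : ∀ (θ : ℝ) (u : ℂ), u ∈ ball (0 : ℂ) r → w + circleMap 0 1 θ * u ∈ ball w (2 * r) := by
    intro θ u hu
    rw [mem_ball_zero_iff] at hu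
    rw [mem_ball, dist_eq_norm, add_sub_cancel_left, norm_mul]
    have : ‖circleMap 0 1 θ‖ = 1 := by rw [norm_circleMap_zero, abs_one]
    rw [this, one_mul]
    linarith
  have h2pi : ENNReal.ofReal (2 * Real.pi) ≠ 0 := by
    rw [Ne, ENNReal.ofReal_eq_zero, not_le]
    exact Real.two_pi_pos
  have key : ENNReal.ofReal (2 * Real.pi) * ENNReal.ofReal (Real.pi * r ^ 2 * ‖h w‖) ≤
      ENNReal.ofReal (2 * Real.pi) * ∫⁻ z in ball w r, ENNReal.ofReal ‖h z‖ := by
    calc ENNReal.ofReal (2 * Real.pi) * ENNReal.ofReal (Real.pi * r ^ 2 * ‖h w‖) =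
        ∫⁻ _u in ball (0 : ℂ) r, ENNReal.ofReal (2 * Real.pi) * ENNReal.ofReal ‖h w‖ := by
          rw [setLIntegral_const, Complex.volume_ball]
          have h1 : (NNReal.pi : ℝ≥0∞) = ENNReal.ofReal Real.pi := by
            rw [← NNReal.coe_real_pi, ENNReal.ofReal_coe_nnreal]
          rw [h1, ← ENNReal.ofReal_pow hr.le, ← ENNReal.ofReal_mul (by positivity), ← ENNReal.ofReal_mul (by positivity),
            ← ENNReal.ofReal_mul (by positivity), ← ENNReal.ofReal_mul (by positivity)]
          congr 1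
          ring
      _ ≤ ∫⁻ u in ball (0 : ℂ) r, ∫⁻ θ in Ioc 0 (2 * Real.pi), g (w + circleMap 0 1 θ * u) := by
          refine setLIntegral_mono' measurableSet_ball fun u hu => ?_
          refine (circle_le h w r hd hu hr).trans (le_of_eq ?_)
          refine lintegral_congr fun θ => ?_
          rw [hg _ (hmem θ u hu)]
      _ = ∫⁻ θ in Ioc 0 (2 * Real.pi), ∫⁻ u in ball (0 : ℂ) r, g (w + circleMap 0 1 θ * u) := by
          refine lintegral_lintegral_swap ?_
          refine Measurable.aemeasurable ?_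
          refine hgm.comp ?_
          have hc : Continuous (circleMap 0 1) := continuous_circleMap 0 1
          have : Continuous (fun p : ℂ × ℝ => w + circleMap 0 1 p.2 * p.1) := by fun_prop
          exact this.measurable
      _ = ∫⁻ θ in Ioc 0 (2 * Real.pi), ∫⁻ u in ball (0 : ℂ) r, g (w + u) := by
          refine lintegral_congr fun θ => ?_
          exact rot (fun u => g (w + u)) (circleMap 0 1 θ) (by rw [norm_circleMap_zero, abs_one]) r
      _ = ENNReal.ofReal (2 * Real.pi) * ∫⁻ z in ball w r, ENNReal.ofReal ‖h z‖ := by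
          rw [setLIntegral_const, Real.volume_Ioc, sub_zero, mul_comm]
          congr 1
          have h1 : ∫⁻ u in ball (0 : ℂ) r, g (w + u) = ∫⁻ z in ball w r, g z := by
            have hmp : MeasurePreserving (fun u : ℂ => w + u) volume volume := measurePreserving_add_left volume w
            have h3 := hmp.setLIntegral_comp_preimage_emb (measurableEmbedding_addLeft w) g (ball w r)
            have e : (fun u : ℂ => w + u) ⁻¹' ball w r = ball (0 : ℂ) r := by
              ext u
              rw [mem_preimage, mem_ball, mem_ball_zero_iff, dist_eq_norm, add_sub_cancel_left]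
            rw [e] at h3
            exact h3
          rw [h1]
          refine setLIntegral_congr_fun measurableSet_ball fun z hz => ?_
          exact hg z (ball_subset_ball (by linarith) hz)
  exact (ENNReal.mul_le_mul_iff_right h2pi ENNReal.ofReal_ne_top).1 key

end Pool.Agent.P8H76.WT
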